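import Pool.Agent.helper77.SK.Spec

/-! Row `sk:FIN2`. -/

set_option autoImplicit false

namespace Pool.Agent.SK

open Polynomial Finset

section
variable {p : ℕ} [Fact p.Prime]

theorem FIN2_roots_le (d : ℕ) (hd : 0 < d) (e : ZMod p) :
    (Finset.univ.filter (fun x : ZMod p => x ^ d = e)).card ≤ d := by
  classical
  have hne : (X ^ d - C e : (ZMod p)[X]) ≠ 0 := X_pow_sub_C_ne_zero hd e
  have hsub : Finset.univ.filter (fun x : ZMod p => x ^ d = e) ⊆
      (X ^ d - C e : (ZMod p)[X]).roots.toFinset := by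
    intro x hx
    simp only [Finset.mem_filter, Finset.mem_univ, true_and] at hx
    rw [Multiset.mem_toFinset, mem_roots hne, IsRoot.def, eval_sub, eval_pow, eval_X, eval_C, hx,
      sub_self]
  calc _ ≤ (X ^ d - C e : (ZMod p)[X]).roots.toFinset.card := Finset.card_le_card hsub
    _ ≤ Multiset.card (X ^ d - C e : (ZMod p)[X]).roots := Multiset.toFinset_card_le _
    _ ≤ (X ^ d - C e : (ZMod p)[X]).natDegree := card_roots' _
    _ = d := natDegree_X_pow_sub_C

theorem FIN2_card_le (A B : Finset (ZMod p)) (d : ℕ) (ε : ZMod p) (hd : 0 < d) (hA : A.Nonempty)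
    (h : Cl A B d ε) : B.card ≤ d := by
  classical
  obtain ⟨a, ha⟩ := hA
  refine le_trans ?_ (FIN2_roots_le d hd ε)
  apply Finset.card_le_card_of_injOn (fun b => a - b)
  · intro b hb
    simp only [Finset.coe_filter, Finset.mem_univ, true_and, Set.mem_ofPred_eq]
    exact h.2 a ha b hb
  · intro b _ b' _ hbb
    exact sub_right_injective hbb

theorem FIN2_swap (A B : Finset (ZMod p)) (d : ℕ) (ε : ZMod p) (h : Cl A B d ε) :
    Cl B A d ((-1) ^ d * ε) := by
  obtain ⟨h0, h1⟩ := h
  refine ⟨mul_ne_zero (pow_ne_zero _ (neg_ne_zero.2 one_ne_zero)) h0, ?_⟩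
  intro b hb a ha
  rw [← h1 a ha b hb, ← mul_pow]
  congr 1
  ring

theorem FIN2_class_card (d : ℕ) (hd : 0 < d) (hp : 2 * d + 1 = p) (ε : ZMod p)
    (hε : ε = 1 ∨ ε = -1) : d ≤ (Finset.univ.filter (fun x : ZMod p => x ^ d = ε)).card := by
  classical
  have h1 := FIN2_roots_le (p := p) d hd 1
  have h2 := FIN2_roots_le (p := p) d hd (-1)
  have hp2 : p / 2 = d := by omega
  have hcov : (Finset.univ.erase (0 : ZMod p)) ⊆
      Finset.univ.filter (fun x : ZMod p => x ^ d = 1) ∪
        Finset.univ.filter (fun x : ZMod p => x ^ d = -1) := by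
    intro x hx
    have hx0 : x ≠ 0 := Finset.ne_of_mem_erase hx
    have := ZMod.pow_div_two_eq_neg_one_or_one p hx0
    rw [hp2] at this
    simp only [Finset.mem_union, Finset.mem_filter, Finset.mem_univ, true_and]
    exact this
  have hc := (Finset.card_le_card hcov).trans (Finset.card_union_le _ _)
  rw [Finset.card_erase_of_mem (Finset.mem_univ _), Finset.card_univ, ZMod.card] at hc
  rcases hε with rfl | rfl <;> omega

end

theorem FIN2 (hHP : HP_stmt) (hCON : CON_stmt) (hAR2 : AR2_stmt) (hN2 : N2_stmt)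
    (hP19 : P19_stmt) : FIN2_stmt := by
  classical
  intro p hpf A B ε hp2 hA hB hCl
  have hprime : p.Prime := hpf.out
  have hodd : p % 2 = 1 := by
    rcases hprime.eq_two_or_odd with h | h
    · exact absurd h hp2
    · exact h
  have hp3 : 3 ≤ p := by
    have := hprime.two_le
    omega
  obtain ⟨d, hd⟩ : ∃ d, d = (p - 1) / 2 := ⟨_, rfl⟩
  rw [← hd] at hCl ⊢
  have hpd : 2 * d + 1 = p := by omega
  have hd0 : 0 < d := by omega
  have hAne : A.Nonempty := Finset.card_pos.1 (by omega)
  have hBne : B.Nonempty := Finset.card_pos.1 (by omega)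
  have hBd : B.card ≤ d := FIN2_card_le A B d ε hd0 hAne hCl
  have h1 : A.card * B.card ≤ d := (hHP p A B d ε hAne hBne hd0 (by omega) hCl).1
  have hCl' := FIN2_swap A B d ε hCl
  have h2 : A.card * B.card = d → A.card = 2 ∨ B.card = 2 ∨ (p = 19 ∧ A.card = 3 ∧ B.card = 3) := by
    intro hprod
    by_cases hA2 : A.card = 2
    · exact Or.inl hA2
    by_cases hB2 : B.card = 2
    · exact Or.inr (Or.inl hB2)
    right; right
    have c1 := hCON p A B d ε ⟨hCl, hA, hB, hprod, by omega⟩
    have c2 := hCON p B A d _ ⟨hCl', hB, hA, by rw [mul_comm]; exact hprod, by omega⟩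
    exact hAR2 p A.card B.card (by omega) (by omega) (by rw [hprod]; exact hpd) c1 c2
  refine ⟨h1, h2, ?_⟩
  intro hall
  have hε : ε = 1 ∨ ε = -1 := by
    obtain ⟨a, ha⟩ := hAne
    obtain ⟨b, hb⟩ := hBne
    have hab := hCl.2 a ha b hb
    have hne : a - b ≠ 0 := by
      intro h0
      rw [h0, zero_pow hd0.ne'] at hab
      exact hCl.1 hab.symm
    have := ZMod.pow_div_two_eq_neg_one_or_one p hne
    have hp2' : p / 2 = d := by omega
    rw [hp2', hab] at this
    exact this
  have hcard := FIN2_class_card d hd0 hpd ε hε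
  have hsub : Finset.univ.filter (fun x : ZMod p => x ^ d = ε) ⊆
      (A ×ˢ B).image (fun x => x.1 - x.2) := by
    intro x hx
    simp only [Finset.mem_filter, Finset.mem_univ, true_and] at hx
    obtain ⟨a, ha, b, hb, rfl⟩ := hall x hx
    exact Finset.mem_image.2 ⟨(a, b), Finset.mem_product.2 ⟨ha, hb⟩, rfl⟩
  have hle : d ≤ A.card * B.card := by
    calc d ≤ _ := hcard
      _ ≤ ((A ×ˢ B).image (fun x => x.1 - x.2)).card := Finset.card_le_card hsub
      _ ≤ (A ×ˢ B).card := Finset.card_image_le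
      _ = A.card * B.card := Finset.card_product _ _
  have heq : A.card * B.card = d := le_antisymm h1 hle
  rcases h2 heq with h | h | h
  · have hd2 : d = 2 * B.card := by rw [← heq, h]
    rw [hd2] at hCl hall
    exact hN2 p A B ε h hB (by rw [← hd2]; exact hpd) hCl hall
  · have hd2 : d = 2 * A.card := by rw [← heq, h, mul_comm]
    rw [hd2] at hCl'
    refine hN2 p B A _ h hA (by rw [← hd2]; exact hpd) hCl' ?_
    intro x hx
    rw [← hd2] at hx
    have hx' : (-x) ^ d = ε := by
      rw [neg_pow, hx, ← mul_assoc, ← mul_pow]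
      simp
    obtain ⟨a, ha, b, hb, hab⟩ := hall _ hx'
    exact ⟨b, hb, a, ha, by rw [← neg_neg x, hab, neg_sub]⟩
  · obtain ⟨hp19, hA3, hB3⟩ := h
    subst hp19
    have hd9 : d = 9 := by omega
    subst hd9
    exact hP19 A B ε hA3 hB3 hCl hall

end Pool.Agent.SK
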