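import Pool.Agent.helper77.SK.Spec2
import Pool.Agent.helper36.SK.FIN2

/-! Row `sk:FNE`. -/

set_option autoImplicit false

namespace Pool.Agent.SK

open Polynomial Finset

section
variable {p : ℕ} [Fact p.Prime]

theorem FNE_class_card (m d : ℕ) (hm : 0 < m) (hd : 0 < d) (hp : m * d + 1 = p) (c : ZMod p)
    (hc : c ≠ 0) : d ≤ (Finset.univ.filter (fun x : ZMod p => x ^ d = c ^ d)).card := by
  classical
  let V : Finset (ZMod p) := Finset.univ.filter (fun v : ZMod p => v ^ m = 1)
  let fib : ZMod p → Finset (ZMod p) := fun v => Finset.univ.filter (fun x : ZMod p => x ^ d = v)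
  have hV : V.card ≤ m := FIN2_roots_le m hm 1
  have hfib : ∀ v, (fib v).card ≤ d := fun v => FIN2_roots_le d hd v
  have hpow : ∀ x : ZMod p, x ≠ 0 → (x ^ d) ^ m = 1 := by
    intro x hx
    rw [← pow_mul, mul_comm d m]
    have : m * d = p - 1 := by omega
    rw [this]
    exact ZMod.pow_card_sub_one_eq_one hx
  have hcV : c ^ d ∈ V := by
    simp only [V, Finset.mem_filter, Finset.mem_univ, true_and]
    exact hpow c hc
  have hcov : (Finset.univ.erase (0 : ZMod p)) ⊆ V.biUnion fib := by
    intro x hx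
    have hx0 : x ≠ 0 := Finset.ne_of_mem_erase hx
    rw [Finset.mem_biUnion]
    refine ⟨x ^ d, ?_, ?_⟩
    · simp only [V, Finset.mem_filter, Finset.mem_univ, true_and]
      exact hpow x hx0
    · simp only [fib, Finset.mem_filter, Finset.mem_univ, true_and]
  have h1 : (Finset.univ.erase (0 : ZMod p)).card ≤ ∑ v ∈ V, (fib v).card :=
    (Finset.card_le_card hcov).trans Finset.card_biUnion_le
  rw [Finset.card_erase_of_mem (Finset.mem_univ _), Finset.card_univ, ZMod.card,
    ← Finset.add_sum_erase V (fun v => (fib v).card) hcV] at h1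
  have h2 : ∑ v ∈ V.erase (c ^ d), (fib v).card ≤ (m - 1) * d := by
    calc ∑ v ∈ V.erase (c ^ d), (fib v).card ≤ ∑ v ∈ V.erase (c ^ d), d :=
          Finset.sum_le_sum (fun v _ => hfib v)
      _ = (V.erase (c ^ d)).card * d := by rw [Finset.sum_const, smul_eq_mul]
      _ ≤ (m - 1) * d := by
          apply Nat.mul_le_mul_right
          rw [Finset.card_erase_of_mem hcV]
          omega
  have h3 : m * d = (m - 1) * d + d := by
    obtain ⟨k, rfl⟩ : ∃ k, m = k + 1 := ⟨m - 1, by omega⟩
    simp only [Nat.add_sub_cancel]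
    ring
  have h4 : (fib (c ^ d)).card = (Finset.univ.filter (fun x : ZMod p => x ^ d = c ^ d)).card := rfl
  rw [← h4]
  omega

end

theorem FNE (h1 : HP_stmt) (h2 : CNE_stmt) (h3 : ARE_stmt) (h4 : FIN2_stmt) : FNE_stmt := by
  classical
  intro p hpf m d A B ε hm hp hA hB hCl
  have hprime : p.Prime := hpf.out
  have hd0 : 0 < d := by
    rcases Nat.eq_zero_or_pos d with h | h
    · exfalso
      rw [h, mul_zero] at hp
      exact hprime.one_lt.ne (by omega)
    · exact h
  have hAne : A.Nonempty := Finset.card_pos.1 (by omega)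
  have hBne : B.Nonempty := Finset.card_pos.1 (by omega)
  rcases Nat.lt_or_ge m 3 with hm3 | hm3
  · have hm2 : m = 2 := by omega
    subst hm2
    have hp2 : p ≠ 2 := by omega
    have hd : (p - 1) / 2 = d := by omega
    have h := h4 p A B ε hp2 hA hB (by rw [hd]; exact hCl)
    rw [hd] at h
    refine ⟨h.1, ?_, fun _ => h.2.2⟩
    intro heq
    rcases h.2.1 heq with h' | h' | h'
    · exact Or.inr (Or.inl ⟨rfl, Or.inl h'⟩)
    · exact Or.inr (Or.inl ⟨rfl, Or.inr h'⟩)
    · exact Or.inr (Or.inr ⟨h'.1, by omega⟩)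
  · have hdp : 3 * d + 1 ≤ p := by nlinarith
    have hBd : B.card ≤ d := FIN2_card_le A B d ε hd0 hAne hCl
    have hle : A.card * B.card ≤ d := (h1 p A B d ε hAne hBne hd0 (by omega) hCl).1
    have h4d : 4 ≤ A.card * B.card := Nat.mul_le_mul hA hB
    have key : A.card * B.card = d → d = 4 := by
      intro hprod
      by_contra hd4
      have hd5 : 5 ≤ d := by omega
      have c1 := h2 p A B d ε ⟨hCl, hA, hB, hprod, by omega⟩ hd5
      have c2 := h2 p B A d _ ⟨FIN2_swap A B d ε hCl, hB, hA, by rw [mul_comm]; exact hprod,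
        by omega⟩ hd5
      exact h3 p m A.card B.card hm3 hA hB (by rw [hprod]; exact hd5) (by rw [hprod]; exact hp)
        c1.1 c1.2 c2.1 c2.2
    refine ⟨hle, fun h => Or.inl (key h), ?_⟩
    intro hd4 hall
    obtain ⟨a, ha⟩ := hAne
    obtain ⟨b, hb⟩ := hBne
    have hab := hCl.2 a ha b hb
    have hne : a - b ≠ 0 := by
      intro h0
      rw [h0, zero_pow hd0.ne'] at hab
      exact hCl.1 hab.symm
    have hcard := FNE_class_card m d (by omega) hd0 hp (a - b) hne
    rw [hab] at hcard
    have hsub : Finset.univ.filter (fun x : ZMod p => x ^ d = ε) ⊆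
        (A ×ˢ B).image (fun x => x.1 - x.2) := by
      intro x hx
      simp only [Finset.mem_filter, Finset.mem_univ, true_and] at hx
      obtain ⟨a', ha', b', hb', rfl⟩ := hall x hx
      exact Finset.mem_image.2 ⟨(a', b'), Finset.mem_product.2 ⟨ha', hb'⟩, rfl⟩
    have hge : d ≤ A.card * B.card := by
      calc d ≤ _ := hcard
        _ ≤ ((A ×ˢ B).image (fun x => x.1 - x.2)).card := Finset.card_le_card hsub
        _ ≤ (A ×ˢ B).card := Finset.card_image_le
        _ = A.card * B.card := Finset.card_product _ _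
    exact hd4 (key (le_antisymm hle hge))

end Pool.Agent.SK
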